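import Pool.Agent.Q99.RC.Prod
import Mathlib.NumberTheory.LSeries.PrimesInAP

/-!
# The irreducible characters of the Frobenius groups of order `m Q`

All irreducible characters of the group of the maps `x ↦ c x + a` of the field with `Q` elements,
`c` in a subgroup `C` of the unit group, have the degree `1` or `|C|`.
-/

set_option autoImplicit false
set_option linter.unusedSectionVars false

open scoped Classical

noncomputable section

namespace Pool.Agent.Q259.OP

open Pool.Agent.Helper884.IC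
open Pool.Agent.Q90.WR (deg_pos irr_of_norm B_nat)
open Pool.Agent.Q99.RC

section general

variable {G : Type} [Group G] [Fintype G]

/-- linear characters are irreducible -/
theorem lin_irr (l : G →* ℂˣ) : IsIrrChar (fun g => ((l g : ℂˣ) : ℂ)) := by
  have hf : (fun g => ((l g : ℂˣ) : ℂ)) = (oneRep l).character := by
    funext g
    rw [oneRep_char]
  refine irr_of_norm (fun g y => ?_) (fun χ hχ => ?_) ?_ ⟨1, by simp⟩
  · simp only [map_mul, map_inv]
    rw [mul_comm (l y) (l g), mul_assoc, mul_inv_cancel, mul_one]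
  · obtain ⟨V, _, _, _, ρ, hr, rfl⟩ := hχ
    obtain ⟨n, hn⟩ := B_nat (oneRep l) ρ
    exact ⟨n, by rw [hf, Int.cast_natCast]; exact hn⟩
  · unfold B
    have : ∀ g : G, ((l g : ℂˣ) : ℂ) * ((l g⁻¹ : ℂˣ) : ℂ) = 1 := by
      intro g
      rw [← Units.val_mul, ← map_mul, mul_inv_cancel, map_one, Units.val_one]
    simp only [this, Finset.sum_const, Finset.card_univ, nsmul_eq_mul, mul_one]
    rw [← Nat.card_eq_fintype_card]
    exact inv_mul_cancel₀ (cardG_ne (G := G))

/-- multiplicities of the characters of a subgroup -/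
def mu (N : Subgroup G) (l : N →* ℂˣ) (χ : G → ℂ) : ℕ :=
  if h : IsIrrChar χ then Classical.choose (mult_nat N l h) else 0

theorem mu_spec (N : Subgroup G) (l : N →* ℂˣ) {χ : G → ℂ} (h : IsIrrChar χ) :
    B (indChar N l) χ = mu N l χ := by
  unfold mu
  rw [dif_pos h]
  exact Classical.choose_spec (mult_nat N l h)

theorem B_formula (N : Subgroup G) (l : N →* ℂˣ) {χ : G → ℂ} (h : IsIrrChar χ) :
    B (indChar N l) χ = (Nat.card N : ℂ)⁻¹ * ∑ c : N, ((l c : ℂˣ) : ℂ) * χ (c : G)⁻¹ := by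
  rw [frob _ _ _ h.isClass, sum_lamExt N l (fun g => χ g⁻¹)]

theorem sum_mu (N : Subgroup G) (hN : ∀ a b : N, a * b = b * a) [Fintype (N →* ℂˣ)] {χ : G → ℂ}
    (h : IsIrrChar χ) {n : ℕ} (hn : χ 1 = n) : ∑ l : N →* ℂˣ, mu N l χ = n := by
  let _ : CommGroup N := { (inferInstance : Group N) with mul_comm := hN }
  have hN0 : (Nat.card N : ℂ) ≠ 0 := cardC_ne N
  have hs : ∑ lam : N →* ℂˣ, B (indChar N lam) χ =
      (Nat.card N : ℂ)⁻¹ * ((Fintype.card (N →* ℂˣ) : ℂ) * χ 1) := by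
    have h1 := fun lam : N →* ℂˣ => B_formula N lam h
    simp only [h1]
    rw [← Finset.mul_sum, Finset.sum_comm]
    congr 1
    have h2 : ∀ c : N, ∑ lam : N →* ℂˣ, ((lam c : ℂˣ) : ℂ) * χ (c : G)⁻¹ =
        if c = 1 then (Fintype.card (N →* ℂˣ) : ℂ) * χ 1 else 0 := by
      intro c
      rw [← Finset.sum_mul]
      split_ifs with hc
      · subst hc
        simp
      · rw [sum_hom hc, zero_mul]
    simp only [h2]
    rw [Finset.sum_ite_eq' Finset.univ (1 : N), if_pos (Finset.mem_univ _)]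
  have hcard : Fintype.card (N →* ℂˣ) = Nat.card N := by
    rw [← Nat.card_eq_fintype_card]
    exact CommGroup.card_monoidHom_of_hasEnoughRootsOfUnity N ℂ
  rw [hcard, ← mul_assoc, inv_mul_cancel₀ hN0, one_mul, hn] at hs
  have h3 : ∑ lam : N →* ℂˣ, B (indChar N lam) χ = ((∑ l : N →* ℂˣ, mu N l χ : ℕ) : ℂ) := by
    push_cast
    exact Finset.sum_congr rfl fun l _ => mu_spec N l h
  rw [h3] at hs
  exact_mod_cast hs

/-- the conjugate character -/
def cj (N : Subgroup G) [N.Normal] (x : G) (l : N →* ℂˣ) : N →* ℂˣ :=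
  l.comp (MulAut.conjNormal x : N ≃* N).toMonoidHom

theorem cj_apply (N : Subgroup G) [N.Normal] (x : G) (l : N →* ℂˣ) (a : N) :
    cj N x l a = l (MulAut.conjNormal x a) := rfl

theorem mu_cj (N : Subgroup G) [N.Normal] (x : G) (l : N →* ℂˣ) {χ : G → ℂ} (h : IsIrrChar χ) :
    mu N (cj N x l) χ = mu N l χ := by
  have h1 : B (indChar N (cj N x l)) χ = B (indChar N l) χ := by
    rw [B_formula _ _ h, B_formula _ _ h]
    congr 1
    refine Fintype.sum_equiv (MulAut.conjNormal x : N ≃* N).toEquiv _ _ fun a => ?_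
    rw [cj_apply]
    congr 1
    have h2 : (((MulAut.conjNormal x : N ≃* N).toEquiv a : N) : G)⁻¹ = x * (a : G)⁻¹ * x⁻¹ := by
      change ((MulAut.conjNormal x a : N) : G)⁻¹ = _
      rw [MulAut.conjNormal_apply]
      group
    rw [h2, h.isClass]
  rw [mu_spec _ _ h, mu_spec _ _ h] at h1
  exact_mod_cast h1

end general

section frobenius

variable {Q : ℕ} [hQ : Fact Q.Prime] (C : Subgroup (ZMod Q)ˣ)

/-- the translations -/
abbrev Tr : Subgroup (Fr C) := (SemidirectProduct.inl : Multiplicative (ZMod Q) →* Fr C).range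

instance : (Tr C).Normal := by
  rw [Tr, SemidirectProduct.range_inl_eq_ker_rightHom]
  infer_instance

instance : Fintype (Fr C) := Fintype.ofFinite _

theorem tr_comm : ∀ a b : Tr C, a * b = b * a := by
  intro a b
  obtain ⟨_, x, rfl⟩ := a
  obtain ⟨_, y, rfl⟩ := b
  apply Subtype.ext
  change SemidirectProduct.inl x * SemidirectProduct.inl y =
    SemidirectProduct.inl y * SemidirectProduct.inl x
  rw [← map_mul, ← map_mul, mul_comm]

/-- the translation by `a` -/
def tr (a : ZMod Q) : Tr C := ⟨SemidirectProduct.inl (Multiplicative.ofAdd a), ⟨_, rfl⟩⟩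

theorem tr_surj (x : Tr C) : ∃ a : ZMod Q, tr C a = x := by
  obtain ⟨_, a, rfl⟩ := x
  exact ⟨Multiplicative.toAdd a, rfl⟩

theorem tr_add (a b : ZMod Q) : tr C (a + b) = tr C a * tr C b := by
  apply Subtype.ext
  change SemidirectProduct.inl (Multiplicative.ofAdd (a + b)) =
    SemidirectProduct.inl (Multiplicative.ofAdd a) * SemidirectProduct.inl (Multiplicative.ofAdd b)
  rw [← map_mul]
  rfl

theorem conj_tr (c : C) (a : ZMod Q) :
    MulAut.conjNormal (SemidirectProduct.inr c : Fr C) (tr C a) = tr C (((c : (ZMod Q)ˣ) : ZMod Q) * a) := by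
  apply Subtype.ext
  rw [MulAut.conjNormal_apply]
  change (SemidirectProduct.inr c : Fr C) * SemidirectProduct.inl (Multiplicative.ofAdd a) *
    (SemidirectProduct.inr c)⁻¹ = SemidirectProduct.inl (Multiplicative.ofAdd (((c : (ZMod Q)ˣ) : ZMod Q) * a))
  have : Multiplicative.ofAdd (((c : (ZMod Q)ˣ) : ZMod Q) * a) = act C c (Multiplicative.ofAdd a) := rfl
  rw [this, SemidirectProduct.inl_aut, map_inv]

theorem cj_inj {l : Tr C →* ℂˣ} (hl : l ≠ 1) :
    Function.Injective fun c : C => cj (Tr C) (SemidirectProduct.inr c) l := by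
  intro c c' h
  by_contra hne
  apply hl
  have h0 : (((c : (ZMod Q)ˣ) : ZMod Q) - ((c' : (ZMod Q)ˣ) : ZMod Q)) ≠ 0 := by
    intro h0
    apply hne
    apply Subtype.ext
    apply Units.ext
    exact sub_eq_zero.1 h0
  ext x
  obtain ⟨a, rfl⟩ := tr_surj C x
  set d := (((c : (ZMod Q)ˣ) : ZMod Q) - ((c' : (ZMod Q)ˣ) : ZMod Q)) with hd
  have h1 := DFunLike.congr_fun h (tr C (d⁻¹ * a))
  simp only [cj_apply, conj_tr] at h1
  have h2 : tr C a = tr C (((c : (ZMod Q)ˣ) : ZMod Q) * (d⁻¹ * a)) *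
      (tr C (((c' : (ZMod Q)ˣ) : ZMod Q) * (d⁻¹ * a)))⁻¹ := by
    rw [eq_mul_inv_iff_mul_eq, ← tr_add]
    congr 1
    have : ((c : (ZMod Q)ˣ) : ZMod Q) = d + ((c' : (ZMod Q)ˣ) : ZMod Q) := by rw [hd]; ring
    rw [this]
    field_simp
  rw [h2, map_mul, map_inv, h1, mul_inv_cancel]
  simp

theorem cj_ne_one {l : Tr C →* ℂˣ} (hl : l ≠ 1) (c : C) :
    cj (Tr C) (SemidirectProduct.inr c) l ≠ 1 := by
  intro h
  apply hl
  ext x
  obtain ⟨y, hy⟩ := (MulAut.conjNormal (SemidirectProduct.inr c : Fr C) : Tr C ≃* Tr C).surjective x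
  have := DFunLike.congr_fun h y
  rw [cj_apply, hy] at this
  rw [this]
  simp

/-- the dichotomy -/
theorem dichotomy {χ : Fr C → ℂ} (h : IsIrrChar χ) {n : ℕ} (hn : χ 1 = n) :
    (n = Nat.card C ∧ mu (Tr C) 1 χ = 0) ∨ mu (Tr C) 1 χ = n := by
  let _ : CommGroup (Tr C) := { (inferInstance : Group (Tr C)) with mul_comm := tr_comm C }
  let _ : Fintype (Tr C →* ℂˣ) := Fintype.ofFinite _
  have hsum := sum_mu (Tr C) (tr_comm C) h hn
  by_cases hex : ∃ l : Tr C →* ℂˣ, l ≠ 1 ∧ mu (Tr C) l χ ≠ 0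
  · left
    obtain ⟨l, hl, hm⟩ := hex
    have hle := deg_Fr C h hn
    have h1 : Nat.card C + mu (Tr C) 1 χ ≤ n := by
      rw [← hsum]
      have h2 : Finset.univ.image (fun c : C => cj (Tr C) (SemidirectProduct.inr c) l) ∪ {1} ⊆
          (Finset.univ : Finset (Tr C →* ℂˣ)) := Finset.subset_univ _
      refine le_trans ?_ (Finset.sum_le_sum_of_subset h2)
      rw [Finset.sum_union, Finset.sum_image (fun a _ b _ hab => cj_inj C hl hab),
        Finset.sum_singleton]
      · refine Nat.add_le_add_right ?_ _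
        have h3 : ∀ c : C, mu (Tr C) (cj (Tr C) (SemidirectProduct.inr c) l) χ = mu (Tr C) l χ :=
          fun c => mu_cj _ _ _ h
        rw [Finset.sum_congr rfl fun c _ => h3 c, Finset.sum_const, Finset.card_univ,
          ← Nat.card_eq_fintype_card, smul_eq_mul]
        exact Nat.le_mul_of_pos_right _ (Nat.pos_of_ne_zero hm)
      · rw [Finset.disjoint_singleton_right, Finset.mem_image]
        rintro ⟨c, -, hc⟩
        exact cj_ne_one C hl c hc
    omega
  · right
    push Not at hex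
    rw [← hsum]
    exact (Finset.sum_eq_single (1 : Tr C →* ℂˣ) (fun l _ hl => hex l hl)
      (fun h => absurd (Finset.mem_univ _) h)).symm

theorem sum_deg : ∑ ψ ∈ Irr (Fr C), (mu (Tr C) 1 ψ : ℂ) * ψ 1 = Nat.card C := by
  have he := congrFun (expand (indChar (Tr C) 1) (isClass_indChar (Tr C) 1)) 1
  rw [ind_one, Finset.sum_apply] at he
  simp only [Pi.smul_apply, smul_eq_mul] at he
  have h6 := (Tr C).card_mul_index
  rw [index_Fr] at h6
  have hN0 : (Nat.card (Tr C) : ℂ) ≠ 0 := cardC_ne (Tr C)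
  have h7 : (Nat.card (Fr C) : ℂ) / Nat.card (Tr C) = Nat.card C := by
    rw [div_eq_iff hN0, ← h6]
    push_cast
    ring
  rw [h7] at he
  rw [he]
  refine Finset.sum_congr rfl fun ψ hψ => ?_
  rw [mu_spec _ _ (mem_Irr.1 hψ)]

/-- the inflated linear characters -/
def infl (l : C →* ℂˣ) : Fr C → ℂ := fun x => ((l.comp SemidirectProduct.rightHom x : ℂˣ) : ℂ)

theorem infl_irr (l : C →* ℂˣ) : IsIrrChar (infl C l) := lin_irr _

theorem infl_one (l : C →* ℂˣ) : infl C l 1 = 1 := by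
  unfold infl
  rw [map_one, Units.val_one]

theorem infl_inj : Function.Injective (infl C) := by
  intro l l' h
  ext c
  have := congrFun h (SemidirectProduct.inr c)
  unfold infl at this
  simpa using this

theorem degrees (hC : 1 < Nat.card C) {χ : Fr C → ℂ} (h : IsIrrChar χ) :
    χ 1 = 1 ∨ χ 1 = (Nat.card C : ℂ) := by
  let _ : Fintype (C →* ℂˣ) := Fintype.ofFinite _
  obtain ⟨n, hn0, hn⟩ := deg_pos h
  rcases dichotomy C h hn with ⟨h1, -⟩ | h1
  · right
    rw [hn, h1]
  left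
  by_contra hne
  -- sums in natural numbers
  have hd : ∀ ψ : Fr C → ℂ, ∃ k : ℕ, IsIrrChar ψ → ψ 1 = k := by
    intro ψ
    by_cases hψ : IsIrrChar ψ
    · obtain ⟨k, -, hk⟩ := deg_pos hψ
      exact ⟨k, fun _ => hk⟩
    · exact ⟨0, fun h => absurd h hψ⟩
  choose d hd using hd
  have hs : ∑ ψ ∈ Irr (Fr C), mu (Tr C) 1 ψ * d ψ = Nat.card C := by
    have h2 := sum_deg C
    rw [Finset.sum_congr rfl fun ψ hψ => by rw [hd ψ (mem_Irr.1 hψ)]] at h2
    exact_mod_cast h2
  have hlin : ∀ l : C →* ℂˣ, mu (Tr C) 1 (infl C l) * d (infl C l) = 1 := by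
    intro l
    have e1 : infl C l 1 = ((1 : ℕ) : ℂ) := by rw [infl_one]; simp
    have e2 : d (infl C l) = 1 := by
      have := hd _ (infl_irr C l)
      rw [e1] at this
      exact_mod_cast this.symm
    rcases dichotomy C (infl_irr C l) e1 with ⟨h3, -⟩ | h3
    · omega
    · rw [h3, e2]
  have hχ : χ ∉ Finset.univ.image (infl C) := by
    rw [Finset.mem_image]
    rintro ⟨l, -, rfl⟩
    exact hne (infl_one C l)
  have hsub : insert χ (Finset.univ.image (infl C)) ⊆ Irr (Fr C) := by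
    intro ψ hψ
    rcases Finset.mem_insert.1 hψ with rfl | hψ
    · exact mem_Irr.2 h
    · obtain ⟨l, -, rfl⟩ := Finset.mem_image.1 hψ
      exact mem_Irr.2 (infl_irr C l)
  have hcard : Fintype.card (C →* ℂˣ) = Nat.card C := by
    rw [← Nat.card_eq_fintype_card]
    exact CommGroup.card_monoidHom_of_hasEnoughRootsOfUnity C ℂ
  have h4 := Finset.sum_le_sum_of_subset (f := fun ψ => mu (Tr C) 1 ψ * d ψ) hsub
  rw [hs, Finset.sum_insert hχ, Finset.sum_image (fun a _ b _ hab => infl_inj C hab),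
    Finset.sum_congr rfl fun l _ => hlin l, Finset.sum_const, Finset.card_univ, hcard,
    smul_eq_mul, mul_one] at h4
  have h5 : d χ = n := by
    have := hd _ h
    rw [hn] at this
    exact_mod_cast this.symm
  rw [h1, h5] at h4
  have : 0 < n * n := Nat.mul_pos hn0 hn0
  omega

end frobenius

/-- For every even `m > 0` not divisible by `p` there is a group `H` of order prime to `p` all of whose
irreducible characters have the degrees `1` (an even number) or `m` (an odd number). -/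
theorem exists_even (p : ℕ) {m : ℕ} (hm : Even m) (hm0 : 0 < m) (hp : p.Prime) (hpm : ¬ p ∣ m) :
    ∃ (H : Type) (_ : Group H) (_ : Finite H), ¬ p ∣ Nat.card H ∧
      (∀ χ : H → ℂ, IsIrrChar χ → χ 1 = 1 ∨ χ 1 = m) ∧ Even (nd 1 H) ∧ Odd (nd m H) := by
  have : NeZero (2 * m) := ⟨by omega⟩
  have hu : IsUnit (((1 + m : ℕ)) : ZMod (2 * m)) := by
    rw [ZMod.isUnit_iff_coprime]
    refine Nat.Coprime.mul_right ?_ ?_
    · rw [Nat.coprime_two_right]
      exact hm.one_add
    · rw [Nat.coprime_add_self_left]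
      exact Nat.coprime_one_left m
  obtain ⟨Q, hgt, hQ, hQm⟩ := Nat.forall_exists_prime_gt_and_eq_mod hu (p + m + 1)
  have : Fact Q.Prime := ⟨hQ⟩
  rw [ZMod.natCast_eq_natCast_iff] at hQm
  obtain ⟨t, ht⟩ : ∃ t, Q = 1 + m + 2 * m * t := by
    have h1 := (Nat.modEq_iff_dvd' (by omega : 1 + m ≤ Q)).1 hQm.symm
    obtain ⟨t, ht⟩ := h1
    exact ⟨t, by omega⟩
  have hQ1 : Q - 1 = m * (1 + 2 * t) := by rw [ht]; have : m * (1 + 2 * t) = m + 2 * m * t := by ring
                                           omega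
  have hdvd : m ∣ Nat.card (ZMod Q)ˣ := by
    rw [Nat.card_eq_fintype_card, ZMod.card_units, hQ1]
    exact Dvd.intro _ rfl
  obtain ⟨g, hg⟩ := IsCyclic.exists_ofOrder_eq_natCard (α := (ZMod Q)ˣ)
  obtain ⟨s, hs⟩ := hdvd
  have hcpos : 0 < Nat.card (ZMod Q)ˣ := Nat.card_pos
  have hs0 : s ≠ 0 := by
    rintro rfl
    omega
  have hz : orderOf (g ^ s) = m := by
    rw [orderOf_pow_of_dvd hs0 (by rw [hg, hs]; exact Dvd.intro_left _ rfl), hg, hs]
    exact Nat.mul_div_cancel _ (Nat.pos_of_ne_zero hs0)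
  let C := Subgroup.zpowers (g ^ s)
  have hC : Nat.card C = m := by rw [Nat.card_zpowers, hz]
  have hm2 : 2 ≤ m := by
    obtain ⟨r, rfl⟩ := hm
    omega
  have hdeg : ∀ χ : Fr C → ℂ, IsIrrChar χ → χ 1 = 1 ∨ χ 1 = m := by
    intro χ hχ
    have := degrees C (by omega) hχ
    rwa [hC] at this
  have hC1 : ∃ c : C, c ≠ 1 := by
    refine ⟨⟨g ^ s, Subgroup.mem_zpowers _⟩, fun h => ?_⟩
    have : g ^ s = 1 := congrArg Subtype.val h
    rw [this, orderOf_one] at hz
    omega
  have h1 := nd_one_Fr C hC1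
  rw [hC] at h1
  have h2 := nd_sum (G := Fr C) (q := m) (by omega) hdeg
  rw [card_Fr, hC] at h2
  have h3 := nd_one_pos (Fr C)
  -- nd 1 = m
  have h4 : m ∣ nd 1 (Fr C) := by
    have e1 : m ∣ nd 1 (Fr C) + m * m * nd m (Fr C) := by rw [h2]; exact Dvd.intro_left _ rfl
    exact (Nat.dvd_add_left (by rw [mul_assoc]; exact Dvd.intro _ rfl)).1 e1
  have h5 : nd 1 (Fr C) = m := le_antisymm h1 (Nat.le_of_dvd h3 h4)
  have h6 : 1 + m * nd m (Fr C) = Q := by
    rw [h5] at h2
    have : m * (1 + m * nd m (Fr C)) = m * Q := by linarith [mul_comm Q m, h2]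
    exact Nat.eq_of_mul_eq_mul_left hm0 this
  have h7 : nd m (Fr C) = 1 + 2 * t := by
    have : m * nd m (Fr C) = m * (1 + 2 * t) := by
      have : m * (1 + 2 * t) = m + 2 * m * t := by ring
      omega
    exact Nat.eq_of_mul_eq_mul_left hm0 this
  refine ⟨Fr C, inferInstance, inferInstance, ?_, hdeg, ?_, ?_⟩
  · rw [card_Fr, hC, hp.dvd_mul]
    rintro (h | h)
    · have := (Nat.prime_dvd_prime_iff_eq hp hQ).1 h
      omega
    · exact hpm h
  · rw [h5]
    exact hm
  · rw [h7]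
    exact ⟨t, by ring⟩

end Pool.Agent.Q259.OP
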